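import Pool.Agent.K4H19.PF.Fin9

set_option autoImplicit false

/-!
# How often the primes of the form `m ^ 2 + 1` (and of the form `f m`) leave a long gap

For an irreducible polynomial `f` with integer coefficients, the integers `n` of the interval
`(M, M + Y]` such that `f n, f (n + 1), ..., f (n + λ log Y)` are all composite number at least
`Y exp (- exp (C λ))`, uniformly for `1 ≤ λ ≤ c log log Y` and all `M ≥ Y`.

The proof chooses one of the good half of the classes modulo the primes up to `log Y / 16`, and then
covers the surviving shifts by prime factors between a power of `log Y` and a power of `Y`. The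
number of the integers for which the covering succeeds is bounded below by the second moment
method, with a nonnegative weight which vanishes as soon as some surviving shift is not covered
(`Pool.Agent.K4H19.FQ.core6`; the weights are due to helper256, the form for counting to helper831).
The number theoretic input for polynomials (the theorem of Mertens for the number of roots modulo
`p`, absence of collisions, counting in classes) is due to helper474.
-/

namespace Pool.Agent.Results.MP_f1a94e_nt.CompositeStringFrequency

open Polynomial

/-- The value of `f` at every integer of the segment `[n, n + t]` is composite; more precisely it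
has a prime factor `p ≤ z` which is smaller than the value. -/
def CompositeString (f : ℤ[X]) (z t : ℝ) (n : ℤ) : Prop :=
  ∀ k : ℕ, (k : ℝ) ≤ t → ∃ p : ℕ, p.Prime ∧ (p : ℝ) ≤ z ∧ (p : ℤ) ∣ f.eval (n + k) ∧
    (p : ℤ) < f.eval (n + k)

open Classical in
/-- The number of the integers `n` with `M < n ≤ M + Y / 2` at which a string of length `t` of
composite values of `f` begins. -/
noncomputable def strings (f : ℤ[X]) (z t : ℝ) (M : ℤ) (Y : ℝ) : ℕ :=
  ((Finset.Ioc M (M + ⌊Y / 2⌋)).filter (fun n : ℤ => CompositeString f z t n)).card

/-- **Frequency of the long gaps between the arguments of prime values of a polynomial.** Let `f` be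
an irreducible polynomial with integer coefficients, of positive degree, with positive leading
coefficient (for example `f = X ^ 2 + 1`). There are `c, C > 0` and `Y₀` such that for all
`Y ≥ Y₀`, all integers `M ≥ Y` and all `1 ≤ λ ≤ c log log Y`, at least `Y exp (- exp (C λ))`
integers `n` with `M < n ≤ M + Y / 2` have the property that all the values `f n`, `f (n + 1)`, ...,
`f (n + k)`, `k ≤ λ log Y`, are composite, with a prime factor at most `Y ^ (1 / 10)`. -/
theorem result (f : ℤ[X]) (hf : Irreducible f) (hd : 0 < f.natDegree)
    (hl : 0 < f.leadingCoeff) :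
    ∃ c C Y₀ : ℝ, 0 < c ∧ 0 < C ∧ ∀ Y : ℝ, Y₀ ≤ Y → ∀ M : ℤ, Y ≤ M → ∀ lam : ℝ, 1 ≤ lam →
      lam ≤ c * Real.log (Real.log Y) →
      Y * Real.exp (-Real.exp (C * lam)) ≤
        (strings f (Y ^ (1 / 10 : ℝ)) (lam * Real.log Y) M Y : ℝ) := by
  obtain ⟨c, C, Y₀, hc, hC, h⟩ := Pool.Agent.K4H19.PF.main_freq f hf hd hl
  refine ⟨c, C, Y₀, hc, hC, fun Y hY M hM lam h1 h2 => ?_⟩
  refine (h Y hY M hM lam h1 h2).trans (le_of_eq ?_)
  unfold strings CompositeString
  congr!

end Pool.Agent.Results.MP_f1a94e_nt.CompositeStringFrequency
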