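import Pool.Agent.K4H50.HL.C2

/-!
# The conjecture along the quadratic polynomials of discriminant `-4`

The polynomials `g(t) = a t² + 2 b t + (b² + 1)/a` (`0 ≤ b < a`, `a ∣ b² + 1`) are, up to translation, all the
quadratic polynomials of discriminant `-4` with positive leading coefficient; `g(t) = ((a t + b)² + 1)/a`, and
`a = 1` is `t² + 1` itself. The conjecture holds on average over `X ^ δ ≤ a ≤ X ^ (1 - δ)`, and a positive
proportion of the family has at least `1 - ε` times (and a positive proportion at most `1 + ε` times) the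
predicted number of primes.
-/

set_option autoImplicit false

namespace Pool.Agent.Results.MP_f1a94e_nt.DiscriminantMinusFour

open Finset Filter Topology

/-- the pairs `(a, b)` with `0 ≤ b < a ≤ X` and `a ∣ b ^ 2 + 1` -/
def pairs (X : ℕ) : Finset (ℕ × ℕ) :=
  ((Icc 1 X) ×ˢ (range X)).filter (fun x => x.2 < x.1 ∧ x.1 ∣ x.2 ^ 2 + 1)

/-- the integers `t ≥ 0` with `a t + b ≤ X` for which `a t ^ 2 + 2 b t + (b ^ 2 + 1) / a` is prime -/
def primeArguments (a b X : ℕ) : Finset ℕ := (range (X + 1)).filter (fun t : ℕ => a * t + b ≤ X ∧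
  (a * t ^ 2 + 2 * b * t + (b ^ 2 + 1) / a).Prime)

/-- the sum of the logarithms of the prime values -/
noncomputable def logSum (a b X : ℕ) : ℝ :=
  ∑ t ∈ primeArguments a b X, Real.log ((a * t ^ 2 + 2 * b * t + (b ^ 2 + 1) / a : ℕ) : ℝ)

/-- the partial products of the constant of Hardy and Littlewood for `m ^ 2 + 1` -/
noncomputable def partialC (N : ℕ) : ℝ := ∏ p ∈ (range N).filter (fun p => p.Prime ∧ p ≠ 2),
  (1 - ((ZMod.χ₄ (p : ZMod 4) : ℤ) : ℝ) / ((p : ℝ) - 1))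

/-- the factor `h(a)`: for the polynomial of the pair `(a, b)` the constant is `C h(a)` -/
noncomputable def h (a : ℕ) : ℝ := ∏ p ∈ a.primeFactors, if p = 2 then 2 else ((p : ℝ) - 1) / ((p : ℝ) - 2)

/-- the number predicted by the conjecture: `C h(a) (X / a) / log (X ^ 2 / a)` -/
noncomputable def predicted (C : ℝ) (a X : ℕ) : ℝ := C * h a * (((X : ℝ) / a) / Real.log ((X : ℝ) ^ 2 / a))

open Classical in
/-- the pairs with `X ^ δ ≤ a ≤ X ^ (1 - δ)` -/
noncomputable def family (δ : ℝ) (X : ℕ) : Finset (ℕ × ℕ) := (pairs X).filter (fun x =>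
  (X : ℝ) ^ δ ≤ x.1 ∧ (x.1 : ℝ) ≤ (X : ℝ) ^ (1 - δ))

open Classical in
/-- the polynomials of the family with at least `1 - ε` times the predicted number of prime values -/
noncomputable def rich (C ε δ : ℝ) (X : ℕ) : Finset (ℕ × ℕ) := (family δ X).filter (fun x =>
  (1 - ε) * predicted C x.1 X ≤ (primeArguments x.1 x.2 X).card)

open Classical in
/-- the polynomials of the family with at most `1 + ε` times the predicted number of prime values -/
noncomputable def poor (C ε δ : ℝ) (X : ℕ) : Finset (ℕ × ℕ) := (family δ X).filter (fun x =>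
  ((primeArguments x.1 x.2 X).card : ℝ) ≤ (1 + ε) * predicted C x.1 X)

theorem result : ∃ C : ℝ, 0 < C ∧ Tendsto partialC atTop (𝓝 C) ∧
    (∃ K : ℝ, ∀ᶠ X : ℕ in atTop, ∑ x ∈ pairs X, 1 / (x.1 : ℝ) ≤ K * Real.log X) ∧
    ∀ ε : ℝ, 0 < ε → ∃ δ₀ κ : ℝ, 0 < δ₀ ∧ δ₀ < 1 / 2 ∧ 0 < κ ∧ ∀ δ : ℝ, 0 < δ → δ ≤ δ₀ → ∀ᶠ X : ℕ in atTop,
      |∑ x ∈ family δ X, logSum x.1 x.2 X - X * Real.log X| ≤ ε * (X * Real.log X) ∧
      |∑ x ∈ family δ X, C * h x.1 * ((X : ℝ) / x.1) - X * Real.log X| ≤ ε * (X * Real.log X) ∧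
      κ * Real.log X ≤ ∑ x ∈ rich C ε δ X, 1 / (x.1 : ℝ) ∧
      κ * Real.log X ≤ ∑ x ∈ poor C ε δ X, 1 / (x.1 : ℝ) := by
  classical
  refine ⟨Pool.Agent.K4H50.HL.CC, Pool.Agent.K4H50.HL.CC_pos, Pool.Agent.K4H50.HL.CN_lim, ?_, ?_⟩
  · obtain ⟨C2, hC2, hS2⟩ := Pool.Agent.K4H50.HL.sum_rh_h4
    refine ⟨C2, ?_⟩
    filter_upwards [eventually_ge_atTop 3] with X hX
    refine le_trans ?_ (hS2 X hX)
    have e := Pool.Agent.K4H50.HL.pair_sum_one X (fun a => 1 / (a : ℝ))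
    refine le_trans (le_of_eq e) ?_
    apply sum_le_sum
    intro a _
    have h1 := Pool.Agent.K4H50.HL.h4_ge a
    have h2 : (1 : ℝ) ≤ Pool.Agent.K4H50.HL.h4 a ^ 2 := by nlinarith
    rw [mul_one_div]
    apply div_le_div_of_nonneg_right _ (Nat.cast_nonneg _)
    exact le_mul_of_one_le_right (Nat.cast_nonneg _) h2
  · intro ε hε
    obtain ⟨δ₀, κ, h1, h2, h3, h4⟩ := Pool.Agent.K4H50.HL.all ε hε
    refine ⟨δ₀, κ, h1, h2, h3, ?_⟩
    intro δ hδ hδ0
    filter_upwards [h4 δ hδ hδ0] with X hX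
    obtain ⟨e1, e2, e3, e4⟩ := hX
    have hmem : ∀ x ∈ family δ X, 0 < x.1 ∧ x.2 < x.1 ∧ x.1 ∣ x.2 ^ 2 + 1 := by
      intro x hx
      have h5 := Pool.Agent.K4H50.HL.mem_PPr.1 (mem_filter.1 hx).1
      exact ⟨h5.1.1, h5.2.1, h5.2.2⟩
    refine ⟨?_, e2, ?_, ?_⟩
    · have e5 : ∑ x ∈ family δ X, logSum x.1 x.2 X =
          ∑ x ∈ Pool.Agent.K4H50.HL.Fam δ X, Pool.Agent.K4H50.HL.th X x.1 x.2 := by
        apply sum_congr rfl
        intro x hx
        obtain ⟨h5, h6, h7⟩ := hmem x hx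
        rw [Pool.Agent.K4H50.HL.th_eq x.1 x.2 X h5 h6 h7]
        rfl
      rw [e5]
      exact e1
    · refine e3.trans (le_of_eq ?_)
      congr 1
      unfold Pool.Agent.K4H50.HL.Good rich family
      rw [filter_filter]
      apply filter_congr
      intro x hx
      have h5 := Pool.Agent.K4H50.HL.mem_PPr.1 hx
      rw [Pool.Agent.K4H50.HL.TT_eq x.1 x.2 X h5.1.1 h5.2.1 h5.2.2, and_assoc]
      exact Iff.rfl
    · refine e4.trans (le_of_eq ?_)
      congr 1
      unfold Pool.Agent.K4H50.HL.Poor poor family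
      rw [filter_filter]
      apply filter_congr
      intro x hx
      have h5 := Pool.Agent.K4H50.HL.mem_PPr.1 hx
      rw [Pool.Agent.K4H50.HL.TT_eq x.1 x.2 X h5.1.1 h5.2.1 h5.2.2, and_assoc]
      exact Iff.rfl

end Pool.Agent.Results.MP_f1a94e_nt.DiscriminantMinusFour
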