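import Pool.Agent.K4H14.FG.Amp3

/-!
# The primes `n² + 1` are not evenly distributed in the residue classes to large moduli
-/

set_option autoImplicit false

namespace Pool.Agent.Results.MP_f1a94e_nt.NoEquidistribution

open Finset Filter
open Pool.Agent.K4H14.FG

/-- the number of `n` with `1 ≤ n ≤ X`, `n ≡ a (mod q)` and `n² + 1` prime -/
def primeCount (X q a : ℕ) : ℕ :=
  ((Icc 1 X).filter (fun n : ℕ => n ≡ a [MOD q] ∧ (n ^ 2 + 1).Prime)).card

/-- the class `a` modulo `q` is admissible (`a² + 1` is prime to `q`), and the number of `n ≤ X`,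
`n ≡ a (mod q)`, with `n² + 1` prime differs from `F` by at least `δ F` -/
def Deviates (δ F : ℝ) (X q a : ℕ) : Prop :=
  Nat.Coprime (a ^ 2 + 1) q ∧ δ * F ≤ |(primeCount X q a : ℝ) - F|

open Classical in
/-- the pairs `(q, a)` with `1 ≤ q`, `q (log X) ^ B ≤ X`, `a < q`, for which the class `a`
modulo `q` deviates from `F q` -/
noncomputable def deviatingPairs (δ : ℝ) (F : ℕ → ℝ) (B X : ℕ) : Finset (ℕ × ℕ) :=
  ((Icc 1 X) ×ˢ (range X)).filter (fun p : ℕ × ℕ =>
    p.2 < p.1 ∧ (p.1 : ℝ) * Real.log X ^ B ≤ X ∧ Deviates δ (F p.1) X p.1 p.2)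

/-- the constant of the theorem -/
noncomputable def delta (B : ℕ) : ℝ := 1 / (500 * B) ^ (55 * B)

theorem delta_pos (B : ℕ) (hB : 1 ≤ B) : 0 < delta B := by
  unfold delta
  have : (1 : ℝ) ≤ B := by exact_mod_cast hB
  positivity

theorem delta_small (B : ℕ) (hB : 1 ≤ B) :
    2 ^ (12 * B + 42) * (54 * (5 * delta B)) < (1 / (4 * ((12 * B + 42 : ℕ) : ℝ))) ^ (12 * B + 42) := by
  have hB1 : (1 : ℝ) ≤ B := by exact_mod_cast hB
  have hN : ((12 * B + 42 : ℕ) : ℝ) ≤ 54 * B := by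
    push_cast
    linarith
  have hNpos : (0 : ℝ) < ((12 * B + 42 : ℕ) : ℝ) := by positivity
  have h1 : (8 * ((12 * B + 42 : ℕ) : ℝ)) ^ (12 * B + 42) ≤ (432 * B) ^ (54 * B) := by
    calc (8 * ((12 * B + 42 : ℕ) : ℝ)) ^ (12 * B + 42) ≤ (432 * B) ^ (12 * B + 42) := by
          apply pow_le_pow_left₀ (by positivity)
          linarith
      _ ≤ (432 * B) ^ (54 * B) := pow_le_pow_right₀ (by linarith) (by omega)
  have h2 : 270 * (432 * (B : ℝ)) ^ (54 * B) < (500 * B) ^ (55 * B) := by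
    have h3 : (500 * (B : ℝ)) ^ (55 * B) = (500 * B) ^ (54 * B) * (500 * B) ^ B := by
      rw [← pow_add]
      congr 1
      ring
    have h4 : (432 * (B : ℝ)) ^ (54 * B) ≤ (500 * B) ^ (54 * B) :=
      pow_le_pow_left₀ (by positivity) (by linarith) _
    have h5 : (500 : ℝ) ≤ (500 * B) ^ B := by
      calc (500 : ℝ) ≤ 500 * B := by linarith
        _ = (500 * B) ^ 1 := (pow_one _).symm
        _ ≤ (500 * B) ^ B := pow_le_pow_right₀ (by linarith) hB
    have h6 : 0 < (500 * (B : ℝ)) ^ (54 * B) := by positivity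
    rw [h3]
    nlinarith
  have hD : (0 : ℝ) < (500 * B) ^ (55 * B) := by positivity
  rw [div_pow, one_pow, lt_div_iff₀ (by positivity)]
  have h7 : 2 ^ (12 * B + 42) * (54 * (5 * delta B)) * (4 * ((12 * B + 42 : ℕ) : ℝ)) ^ (12 * B + 42) =
      270 * (8 * ((12 * B + 42 : ℕ) : ℝ)) ^ (12 * B + 42) / (500 * B) ^ (55 * B) := by
    have h8 : (8 * ((12 * B + 42 : ℕ) : ℝ)) ^ (12 * B + 42) =
        2 ^ (12 * B + 42) * (4 * ((12 * B + 42 : ℕ) : ℝ)) ^ (12 * B + 42) := by
      rw [← mul_pow]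
      congr 1
      ring
    rw [h8]
    unfold delta
    ring
  rw [h7, div_lt_one hD]
  calc 270 * (8 * ((12 * B + 42 : ℕ) : ℝ)) ^ (12 * B + 42) ≤ 270 * (432 * (B : ℝ)) ^ (54 * B) := by
        linarith
    _ < _ := h2

theorem delta_le (B : ℕ) (hB : 1 ≤ B) : delta B ≤ 1 / 500 := by
  have hB1 : (1 : ℝ) ≤ B := by exact_mod_cast hB
  unfold delta
  apply div_le_div_of_nonneg_left (by norm_num) (by norm_num)
  calc (500 : ℝ) ≤ 500 * B := by linarith
    _ = (500 * B) ^ 1 := (pow_one _).symm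
    _ ≤ (500 * B) ^ (55 * B) := pow_le_pow_right₀ (by linarith) (by omega)

/-- **Result.** Let `B ≥ 1` be an integer, `ε > 0` and `δ = (500 B) ^ (-55 B)`. For all large `x`
there is an `X` with `x ≤ X ≤ x (log x) ^ (3B + 11)` such that, whatever the function `F` of the
modulus, for at least `X ^ (2 - ε)` pairs `(q, a)` with `a < q ≤ X / (log X) ^ B` and
`(a² + 1, q) = 1` the number of `n ≤ X`, `n ≡ a (mod q)`, with `n² + 1` prime differs from `F(q)` by
at least `δ F(q)`. -/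
theorem result (B : ℕ) (hB : 1 ≤ B) (ε : ℝ) (hε : 0 < ε) :
    ∃ x₀ : ℕ, ∀ x : ℕ, x₀ ≤ x → ∃ X : ℕ, x ≤ X ∧
      (X : ℝ) ≤ x * Real.log x ^ (3 * B + 11) ∧
      ∀ F : ℕ → ℝ, (X : ℝ) ^ (2 - ε) ≤ ((deviatingPairs (delta B) F B X).card : ℝ) := by
  classical
  have hd0 := delta_pos B hB
  have hd1 := delta_le B hB
  have hd2 := delta_small B hB
  generalize delta B = δ at hd0 hd1 hd2
  obtain ⟨ε', hε', hε'1, hε'2⟩ : ∃ ε' : ℝ, 0 < ε' ∧ ε' ≤ 1 ∧ ε' ≤ ε :=
    ⟨min ε 1, by positivity, min_le_right _ _, min_le_left _ _⟩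
  obtain ⟨x₁, hx₁⟩ := main_aux B (ε' / 64) (by positivity) (by linarith) (5 * δ)
    (by positivity) (by linarith)
  obtain ⟨x₃, hx₃⟩ := eventually_atTop.1 (transfer B ε' hε' hε'1 δ hd0 (by linarith))
  have hlog : Tendsto (fun X : ℕ => Real.log X) atTop atTop :=
    Real.tendsto_log_atTop.comp tendsto_natCast_atTop_atTop
  obtain ⟨x₂, hx₂⟩ := eventually_atTop.1 ((hlog.eventually_ge_atTop (64 * 4 ^ (3 * B + 10))).and
    (hlog.eventually_ge_atTop 1))
  refine ⟨x₁ + x₂ + x₃ + 2, fun x hx => ?_⟩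
  by_contra hcon
  push Not at hcon
  obtain ⟨hlx, hlx1⟩ := hx₂ x (by omega)
  have hx0 : (2 : ℝ) ≤ x := by exact_mod_cast (by omega : 2 ≤ x)
  apply absurd (hx₁ (2 * x) (by omega) ?_) (not_le.2 hd2)
  intro X hX1 hX2
  have hxX : x ≤ X := by omega
  have hXup : (X : ℝ) ≤ x * Real.log x ^ (3 * B + 11) := by
    refine hX2.trans ?_
    have h1 : Real.log ((2 * x : ℕ) : ℝ) ≤ 2 * Real.log x := by
      have h2 : (2 : ℝ) * Real.log x = Real.log ((x : ℝ) ^ 2) := by
        rw [Real.log_pow]; norm_num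
      rw [h2]
      apply Real.log_le_log (by push_cast; linarith)
      push_cast
      nlinarith
    have h0 : 0 ≤ Real.log ((2 * x : ℕ) : ℝ) := Real.log_natCast_nonneg _
    calc 32 * (2 * Real.log ((2 * x : ℕ) : ℝ)) ^ (3 * B + 10) * ((2 * x : ℕ) : ℝ) ≤
        32 * (2 * (2 * Real.log x)) ^ (3 * B + 10) * ((2 * x : ℕ) : ℝ) := by gcongr
      _ = x * ((64 * 4 ^ (3 * B + 10)) * Real.log x ^ (3 * B + 10)) := by
          have : (2 * (2 * Real.log x)) = 4 * Real.log x := by ring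
          rw [this, mul_pow]
          push_cast
          ring
      _ ≤ x * (Real.log x * Real.log x ^ (3 * B + 10)) := by gcongr
      _ = x * Real.log x ^ (3 * B + 11) := by ring
  obtain ⟨F, c2⟩ := hcon X hxX hXup
  have hX0 : (1 : ℝ) ≤ X := by
    have : 1 ≤ X := by omega
    exact_mod_cast this
  have hsum : (∑ q ∈ mo B X, ((dv δ (F q) X q).card : ℝ)) < (X : ℝ) ^ (2 - ε') := by
    have h2 : ∑ q ∈ mo B X, (dv δ (F q) X q).card =
        ((mo B X).sigma (fun q => dv δ (F q) X q)).card := (card_sigma _ _).symm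
    have h3 : ((mo B X).sigma (fun q => dv δ (F q) X q)).card ≤ (deviatingPairs δ F B X).card := by
      apply card_le_card_of_injOn (fun p => (p.1, p.2))
      · intro p hp
        simp only [coe_sigma, Set.mem_sigma_iff, mem_coe] at hp
        obtain ⟨hp1, hp2⟩ := hp
        unfold mo at hp1
        unfold dv at hp2
        rw [mem_filter, mem_Icc] at hp1
        rw [mem_filter, mem_range] at hp2
        unfold deviatingPairs
        rw [mem_coe, mem_filter, mem_product, mem_Icc, mem_range]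
        exact ⟨⟨hp1.1, by simp only; omega⟩, hp2.1, hp1.2, hp2.2⟩
      · rintro ⟨q, a⟩ _ ⟨q', a'⟩ _ h
        simp only [Prod.mk.injEq] at h
        obtain ⟨rfl, rfl⟩ := h
        rfl
    rw [← h2] at h3
    have h1 : (∑ q ∈ mo B X, ((dv δ (F q) X q).card : ℝ)) ≤ ((deviatingPairs δ F B X).card : ℝ) := by
      exact_mod_cast h3
    refine lt_of_le_of_lt h1 (c2.trans_le ?_)
    exact Real.rpow_le_rpow_of_exponent_le hX0 (by linarith)
  exact hx₃ X (by omega) F hsum

end Pool.Agent.Results.MP_f1a94e_nt.NoEquidistribution
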