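import Pool.Agent.K4H14.MT.Quad

/-!
# The primes `n² + 1` in short intervals and in progressions with small smooth moduli
-/

set_option autoImplicit false

namespace Pool.Agent.Results.MP_f1a94e_nt.ShortIntervalsOrSmoothModuli

open Finset Filter
open Pool.Agent.K4H14.MT

/-- the number of `n` with `X < n ≤ Y`, `n ≡ a (mod q)` and `n² + 1` prime -/
def primeCount (X Y q a : ℕ) : ℕ :=
  ((Ioc X Y).filter (fun n : ℕ => n ≡ a [MOD q] ∧ (n ^ 2 + 1).Prime)).card

/-- the number of classes `b` modulo `q` such that `b² + 1` is prime to `q` -/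
def classes (q : ℕ) : ℕ := ((range q).filter (fun b : ℕ => Nat.Coprime (b ^ 2 + 1) q)).card

/-- the constant of the theorem: `1 / (4 (8 N) ^ N)` with `N = ⌈6 B / ε⌉` -/
noncomputable def delta (B : ℕ) (ε : ℝ) : ℝ := 1 / (4 * (8 * (⌈6 * B / ε⌉₊ : ℕ)) ^ ⌈6 * B / ε⌉₊)

/-- `q` is squarefree, all its prime factors are between `(log X) ^ (3 ε / 8)` and `(log X) ^ ε`, and
`q ≤ exp ((log X) ^ ε)` -/
def SmallModulus (ε : ℝ) (X q : ℕ) : Prop :=
  Squarefree q ∧ (∀ p : ℕ, p.Prime → p ∣ q → Real.log X ^ (3 / 8 * ε) ≤ p ∧ (p : ℝ) < Real.log X ^ ε) ∧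
    (q : ℝ) ≤ Real.exp (Real.log X ^ ε)

/-- the class `a` modulo `q` is admissible, and the number of primes `n² + 1`, `X < n ≤ 2 X`,
`n ≡ a (mod q)`, differs from the share `G / classes q` by at least `δ` times that share -/
def ClassDeviates (δ G : ℝ) (X q a : ℕ) : Prop :=
  Nat.Coprime (a ^ 2 + 1) q ∧
    δ * (G / classes q) ≤ |(primeCount X (2 * X) q a : ℝ) - G / classes q|

/-- the number of primes `n² + 1` with `y < n ≤ y + S` differs from the share `S G / X` by at least
`δ` times that share -/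
def IntervalDeviates (δ G : ℝ) (X S y : ℕ) : Prop :=
  δ * (S * (G / X)) ≤ |(primeCount y (y + S) 1 0 : ℝ) - S * (G / X)|

theorem cnt_eq (X Y q a : ℕ) : cnt (fun n => (n ^ 2 + 1).Prime) X Y q a = primeCount X Y q a := by
  unfold cnt primeCount
  congr!

open Classical in
/-- **The primes `n² + 1` are irregular in short intervals or in progressions with tiny smooth moduli.**
Let `B ≥ 1` be an integer, `0 < ε ≤ 1`, `N = ⌈6 B / ε⌉` and `δ = 1 / (4 (8 N) ^ N)`. For all large `X`
and every real number `G` (the main term for the number of primes `n² + 1` with `X < n ≤ 2 X`) at least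
one of the following holds.

(i) There is a squarefree `q ≤ exp ((log X) ^ ε)`, all of whose prime factors are between
`(log X) ^ (3 ε / 8)` and `(log X) ^ ε`, and an integer `0 ≤ a ≤ (log X) ^ B` with `a² + 1` prime to
`q`, such that the number of primes `n² + 1` with `X < n ≤ 2 X`, `n ≡ a (mod q)`, differs from its share
`G / r(q)` by at least `δ G / r(q)`, where `r(q)` is the number of the classes `b` modulo `q` with
`b² + 1` prime to `q`.

(ii) For every length `S` with `1 ≤ S ≤ (log X) ^ B` there are at least `X exp (-(log X) ^ ε)` integers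
`y` in `(X, 2 X]` such that the number of primes `n² + 1` with `y < n ≤ y + S` differs from its share
`S G / X` by at least `δ S G / X`. -/
theorem result (B : ℕ) (hB : 1 ≤ B) (ε : ℝ) (hε : 0 < ε) (hε1 : ε ≤ 1) :
    ∃ X₀ : ℕ, ∀ X : ℕ, X₀ ≤ X → ∀ G : ℝ,
      (∃ q a : ℕ, SmallModulus ε X q ∧ (a : ℝ) ≤ Real.log X ^ B ∧
        ClassDeviates (delta B ε) G X q a) ∨
      ∀ S : ℕ, 1 ≤ S → (S : ℝ) ≤ Real.log X ^ B →
        X * Real.exp (-(Real.log X ^ ε)) ≤
          (((Ioc X (2 * X)).filter (fun y : ℕ => IntervalDeviates (delta B ε) G X S y)).card : ℝ) := by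
  obtain ⟨X₀, h⟩ := eventually_atTop.1 (quad B hB ε hε hε1)
  refine ⟨X₀, fun X hX G => ?_⟩
  have h1 := h X hX G
  simp only [cnt_eq] at h1
  rcases h1 with ⟨q, h2, h3, h4, a, h7, h5, h6⟩ | h2
  · left
    exact ⟨q, a, ⟨h2, h3, h4⟩, h7, h5, h6⟩
  · right
    intro S hS1 hSB
    exact h2 S hS1 hSB

end Pool.Agent.Results.MP_f1a94e_nt.ShortIntervalsOrSmoothModuli
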